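import Pool.Agent.W229.V.Stmts

/-! Task A2 of `Pool.Agent.W229.V.Stmts`: a generic tuple of small integers. -/

set_option autoImplicit false

namespace Pool.Agent.W368.V

open Module MvPolynomial Pool.Agent.W229.V

theorem sum_dig (m : ℕ) (r l : ℕ) : ∑ j : Fin r, m ^ (j : ℕ) * dig m l j = l % m ^ r := by
  rw [Fin.sum_univ_eq_sum_range (fun j => m ^ j * dig m l j) r]
  induction r with
  | zero => simp [Nat.mod_one]
  | succ r ih => rw [Finset.sum_range_succ, ih, Nat.mod_pow_succ]; rfl

/-- the generic determinant -/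
noncomputable def gen (n r m : ℕ) (U : Matrix (Fin n) (Fin n) ℂ) :
    Matrix (Fin n) (Fin n) (MvPolynomial (Fin r × Fin n) ℂ) :=
  Matrix.of fun s l => ∏ j : Fin r, (∑ i : Fin n, X (j, i) * C (U i s)) ^ dig m l j

theorem eval_gen (n r m : ℕ) (U : Matrix (Fin n) (Fin n) ℂ) (x : Fin r × Fin n → ℂ) :
    eval x (gen n r m U).det =
      (Matrix.of fun s l : Fin n =>
        ∏ j : Fin r, (∑ i : Fin n, x (j, i) * U i s) ^ dig m l j).det := by
  rw [RingHom.map_det]
  congr 1
  ext s l
  simp [gen]

theorem gen_ne_zero {n r m : ℕ} (hn : n ≤ m ^ r) (U : Matrix (Fin n) (Fin n) ℂ)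
    (hU : U.det ≠ 0) : (gen n r m U).det ≠ 0 := by
  intro h0
  let t : Fin r → Fin n → ℂ := fun j s => ((s : ℕ) : ℂ) ^ (m ^ (j : ℕ))
  let x : Fin r × Fin n → ℂ := fun p => Matrix.vecMul (t p.1) U⁻¹ p.2
  have hx : ∀ j s, ∑ i : Fin n, x (j, i) * U i s = t j s := by
    intro j s
    have h1 : Matrix.vecMul (Matrix.vecMul (t j) U⁻¹) U = t j := by
      rw [Matrix.vecMul_vecMul, Matrix.nonsing_inv_mul _ (isUnit_iff_ne_zero.2 hU),
        Matrix.vecMul_one]
    have h2 := congrFun h1 s
    exact h2
  have h := eval_gen n r m U x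
  rw [h0, map_zero] at h
  have hv : (Matrix.of fun s l : Fin n =>
      ∏ j : Fin r, (∑ i : Fin n, x (j, i) * U i s) ^ dig m l j) =
      Matrix.vandermonde (fun s : Fin n => ((s : ℕ) : ℂ)) := by
    ext s l
    simp only [Matrix.of_apply, Matrix.vandermonde_apply, hx]
    simp only [t, ← pow_mul]
    rw [Finset.prod_pow_eq_pow_sum, sum_dig, Nat.mod_eq_of_lt (l.2.trans_le hn)]
  rw [hv] at h
  exact Matrix.det_vandermonde_ne_zero_iff.2
    (fun a b hab => Fin.ext (by exact_mod_cast hab)) h.symm

theorem dig_le (m l j : ℕ) : dig m l j ≤ max m l := by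
  unfold dig
  rcases Nat.eq_zero_or_pos m with h | h
  · subst h
    rw [Nat.mod_zero]
    exact (Nat.div_le_self _ _).trans (le_max_right _ _)
  · exact ((Nat.mod_lt _ h).le).trans (le_max_left _ _)

theorem totalDegree_gen (n r m : ℕ) (U : Matrix (Fin n) (Fin n) ℂ) :
    (gen n r m U).det.totalDegree ≤ n * (r * (m + n)) := by
  classical
  rw [Matrix.det_apply]
  refine (totalDegree_finsetSum _ _).trans (Finset.sup_le fun σ _ => ?_)
  refine (totalDegree_smul_le _ _).trans ?_
  refine (totalDegree_finsetProd _ _).trans ?_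
  calc ∑ i : Fin n, (gen n r m U (σ i) i).totalDegree
      ≤ ∑ _i : Fin n, r * (m + n) := by
        refine Finset.sum_le_sum fun l _ => ?_
        rw [gen, Matrix.of_apply]
        refine (totalDegree_finsetProd _ _).trans ?_
        calc ∑ j : Fin r, ((∑ i : Fin n, (X (j, i) : MvPolynomial (Fin r × Fin n) ℂ) *
              C (U i (σ l))) ^ dig m l j).totalDegree
            ≤ ∑ _j : Fin r, (m + n) := by
              refine Finset.sum_le_sum fun j _ => ?_
              refine (totalDegree_pow _ _).trans ?_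
              have h1 : (∑ i : Fin n, (X (j, i) : MvPolynomial (Fin r × Fin n) ℂ) *
                  C (U i (σ l))).totalDegree ≤ 1 := by
                refine (totalDegree_finsetSum _ _).trans (Finset.sup_le fun i _ => ?_)
                refine (totalDegree_mul _ _).trans ?_
                rw [totalDegree_X, totalDegree_C]
              calc dig m l j * _ ≤ dig m l j * 1 := Nat.mul_le_mul_left _ h1
                _ = dig m l j := mul_one _
                _ ≤ max m l := dig_le _ _ _
                _ ≤ m + n := max_le (Nat.le_add_right _ _) (l.2.le.trans (Nat.le_add_left _ _))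
          _ = r * (m + n) := by simp
    _ = n * (r * (m + n)) := by simp

theorem taskA2 : TaskA2 := by
  intro n r m hn
  set H : ℕ := n * (r * (m + n)) with hH
  refine ⟨n * H + 1, by
    have : (0 : ℝ) ≤ (n : ℝ) * H := by positivity
    linarith, ?_⟩
  intro K _ _ hK ω hω L hL
  classical
  have hn0 : 0 < n := hK ▸ finrank_pos
  have : Nonempty (Fin n) := ⟨⟨0, hn0⟩⟩
  let b : Basis (Fin n) ℚ K := basisOfLinearIndependentOfCardEqFinrank hω (by simp [hK])
  have hb : ∀ i, b i = (ω i : K) := fun i => by simp [b]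
  -- the embeddings
  have hcard : Fintype.card (Fin n) = Fintype.card (K →ₐ[ℚ] ℂ) := by
    rw [AlgHom.card, hK, Fintype.card_fin]
  let e : Fin n ≃ (K →ₐ[ℚ] ℂ) := Fintype.equivOfCardEq hcard
  let U : Matrix (Fin n) (Fin n) ℂ := Matrix.of fun i s => e s (b i)
  have hU : U.det ≠ 0 := by
    have h1 := Algebra.discr_eq_det_embeddingsMatrixReindex_pow_two ℚ ℂ (b : Fin n → K) e
    have h2 : Algebra.embeddingsMatrixReindex ℚ ℂ (b : Fin n → K) e = U := by
      ext i s
      simp [Algebra.embeddingsMatrixReindex, U]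
    rw [h2] at h1
    intro h0
    rw [h0, zero_pow two_ne_zero] at h1
    exact Algebra.discr_not_zero_of_basis ℚ b
      ((map_eq_zero (algebraMap ℚ ℂ)).1 h1)
  -- a point of the grid where the generic determinant does not vanish
  obtain ⟨x, hxS, hx0⟩ : ∃ x : Fin r × Fin n → ℂ,
      (∀ p, x p ∈ (Finset.range (H + 1)).image (fun a : ℕ => (a : ℂ))) ∧
      eval x (gen n r m U).det ≠ 0 := by
    by_contra hcon
    push Not at hcon
    refine gen_ne_zero hn U hU (eq_zero_of_eval_zero_at_prod_finset _
      (fun _ => (Finset.range (H + 1)).image (fun a : ℕ => (a : ℂ))) (fun p => ?_)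
      (fun x hx => hcon x hx))
    rw [Finset.card_image_of_injective _ Nat.cast_injective, Finset.card_range]
    exact Nat.lt_succ_of_le ((degreeOf_le_totalDegree _ _).trans (totalDegree_gen n r m U))
  have hxa : ∀ p, ∃ a : ℕ, a ≤ H ∧ (a : ℂ) = x p := by
    intro p
    obtain ⟨a, ha, hap⟩ := Finset.mem_image.1 (hxS p)
    exact ⟨a, Nat.lt_succ_iff.1 (Finset.mem_range.1 ha), hap⟩
  choose a haH hax using hxa
  let α : Fin r → NumberField.RingOfIntegers K := fun j => ∑ i, (a (j, i) : ℕ) • ω i
  have hα : ∀ j (σ : K →+* ℂ), σ (α j : K) = ∑ i, x (j, i) * σ (ω i : K) := by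
    intro j σ
    have h1 : (α j : K) = ∑ i, (a (j, i) : K) * (ω i : K) := by
      change algebraMap (NumberField.RingOfIntegers K) K (∑ i, (a (j, i) : ℕ) • ω i) = _
      rw [map_sum]
      refine Finset.sum_congr rfl fun i _ => ?_
      rw [map_nsmul, nsmul_eq_mul]
    rw [h1, map_sum]
    refine Finset.sum_congr rfl fun i _ => ?_
    rw [map_mul, map_natCast, hax]
  have hL0 : 0 ≤ L := (norm_nonneg _).trans (hL ⟨0, hn0⟩ (e ⟨0, hn0⟩ : K →+* ℂ))
  refine ⟨α, fun j σ => ?_, ?_⟩
  · rw [hα]
    calc ‖∑ i, x (j, i) * σ (ω i : K)‖ ≤ ∑ i, ‖x (j, i) * σ (ω i : K)‖ := norm_sum_le _ _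
      _ ≤ ∑ _i : Fin n, (H : ℝ) * L := by
        refine Finset.sum_le_sum fun i _ => ?_
        rw [norm_mul, ← hax, Complex.norm_natCast]
        exact mul_le_mul (by exact_mod_cast haH _) (hL i σ) (norm_nonneg _) (by positivity)
      _ = n * H * L := by simp; ring
      _ ≤ (n * H + 1) * L := by nlinarith
  · rw [Fintype.linearIndependent_iff]
    intro c hc
    let A : Matrix (Fin n) (Fin n) ℂ := Matrix.of fun s l : Fin n =>
        ∏ j : Fin r, (∑ i : Fin n, x (j, i) * U i s) ^ dig m l j
    have hA : A.det ≠ 0 := by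
      have := eval_gen n r m U x
      rw [this] at hx0
      exact hx0
    have hAe : ∀ s l, A s l = e s (mono m (fun j => (α j : K)) l) := by
      intro s l
      simp only [A, Matrix.of_apply, mono, map_prod, map_pow]
      refine Finset.prod_congr rfl fun j _ => ?_
      congr 1
      have := hα j (e s : K →+* ℂ)
      simp only [RingHom.coe_coe] at this
      rw [this]
      simp [U, hb]
    have h0 : A.mulVec (fun l => (c l : ℂ)) = 0 := by
      funext s
      have h1 : e s (∑ l, c l • mono m (fun j => (α j : K)) l) = 0 := by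
        rw [hc, map_zero]
      rw [map_sum] at h1
      simp only [Matrix.mulVec, dotProduct, hAe, Pi.zero_apply]
      rw [← h1]
      refine Finset.sum_congr rfl fun l _ => ?_
      rw [Rat.smul_def, map_mul, map_ratCast, mul_comm]
    have h2 := Matrix.eq_zero_of_mulVec_eq_zero hA h0
    intro l
    have h3 := congrFun h2 l
    simpa using h3

end Pool.Agent.W368.V
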